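import Pool.Agent.H.MP_2df7e1_an.Defs

open Set Filter Topology Function

namespace Pool.Agent.H.MP_2df7e1_an

lemma br {X : Type} {f : X → X} {b : ℕ → X} (h : ∀ n, f (b (n + 1)) = b n) (k n : ℕ) :
    f^[k] (b (n + k)) = b n := by
  induction k with
  | zero => rfl
  | succ k ih => rw [iterate_succ_apply, ← add_assoc, h, ih]

lemma bb {X : Type} [TopologicalSpace X] [FirstCountableTopology X] {f : X → X} {x y : X}
    {S : Set X} (h1 : ∃ z ∈ S, ∃ n, f^[n] z = x)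
    (h2 : ∀ z ∈ S, ∀ U ∈ 𝓝 y, ∃ w ∈ S ∩ U, ∃ n, f^[n + 1] w = z) : y ∈ sa f x := by
  obtain ⟨U, hU⟩ := (𝓝 y).exists_antitone_basis
  obtain ⟨z0, m0, n0, e0⟩ := h1
  choose! w hw l hl using fun z hz k => h2 z hz (U k) (hU.mem k)
  let z : ℕ → X := fun k => Nat.rec z0 (fun k a => w a k) k
  let N : ℕ → ℕ := fun k => Nat.rec n0 (fun k a => a + (l (z k) k + 1)) k
  have zs : ∀ k, z k ∈ S := fun k => by
    induction k with
    | zero => exact m0
    | succ k ih => exact (hw _ ih k).1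
  have Ns : ∀ k, N (k + 1) = N k + (l (z k) k + 1) := fun _ => rfl
  have Nk : ∀ k, k ≤ N k := fun k => by
    induction k with
    | zero => exact Nat.zero_le _
    | succ k ih => rw [Ns]; omega
  have st : ∀ k n, n ≤ N k → f^[N (k + 1) - n] (z (k + 1)) = f^[N k - n] (z k) := fun k n h => by
    rw [Ns, show N k + (l (z k) k + 1) - n = N k - n + (l (z k) k + 1) by omega, iterate_add_apply]
    exact congrArg _ (hl _ (zs k) k)
  have st2 : ∀ k m, k ≤ m → N k ≤ N m ∧ f^[N m - N k] (z m) = z k := fun k m h => by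
    induction m, h using Nat.le_induction with
    | base => simp
    | succ m _ ih => exact ⟨by rw [Ns]; omega, (st m _ ih.1).trans ih.2⟩
  refine ⟨fun n => f^[N n - n] (z n), e0, fun n => ?_, fun k => N (k + 1),
    tendsto_atTop_mono (fun k => (Nat.le_succ k).trans (Nk _)) tendsto_id, ?_⟩
  · beta_reduce
    rw [← iterate_succ_apply' f, ← st n n (Nk n)]
    have := Nk (n + 1)
    congr 1
    omega
  · simp only [(st2 _ _ (Nk _)).2]
    exact hU.tendsto fun k => (hw _ (zs k) k).2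

/-- the forward orbit of a set -/
def orb {X : Type} (f : X → X) (J : Set X) : Set X := ⋃ n, f^[n] '' J

lemma per {X : Type} [TopologicalSpace X] {f : X → X} (hf : Continuous f) {J : Set X}
    (hJ : IsPreconnected J) {u : X} (hu : u ∈ J) {n : ℕ} (hn : f^[n + 1] u ∈ J) :
    ∃ (C : ℕ → Set X) (p : ℕ), 0 < p ∧ C 0 = connectedComponentIn (orb f J) u ∧
      (∀ z ∈ orb f J, ∃ i, z ∈ C i) ∧ (∀ i k, MapsTo f^[k] (C i) (C (i + k))) ∧
      (∀ i j, i ≡ j [MOD p] → C i = C j) ∧ ∀ i j, (C i ∩ C j).Nonempty → i ≡ j [MOD p] := by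
  classical
  let C : ℕ → Set X := fun i => connectedComponentIn (orb f J) (f^[i] u)
  have a : ∀ i, f^[i] '' J ⊆ C i := fun i => (hJ.image _ (hf.iterate i).continuousOn
    ).subset_connectedComponentIn ⟨u, hu, rfl⟩ (subset_iUnion (fun n => f^[n] '' J) i)
  have b : ∀ i k, MapsTo f^[k] (C i) (C (i + k)) := fun i k => by
    refine mapsTo_iff_image_subset.2 ((isPreconnected_connectedComponentIn.image _
      (hf.iterate k).continuousOn).subset_connectedComponentIn ⟨_, a i ⟨u, hu, rfl⟩, ?_⟩ ?_)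
    · rw [add_comm, iterate_add_apply]
    · rintro _ ⟨z, hz, rfl⟩
      obtain ⟨m, v, hv, rfl⟩ := mem_iUnion.1 (connectedComponentIn_subset _ _ hz)
      exact mem_iUnion.2 ⟨k + m, v, hv, iterate_add_apply ..⟩
  have c : ∀ i j, (C i ∩ C j).Nonempty → C i = C j := fun i j ⟨z, h1, h2⟩ =>
    (connectedComponentIn_eq h1).trans (connectedComponentIn_eq h2).symm
  have d : ∀ i j k, C i = C j → C (i + k) = C (j + k) := fun i j k h =>
    c _ _ ⟨_, b i k (a i ⟨u, hu, rfl⟩), b j k (h ▸ a i ⟨u, hu, rfl⟩)⟩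
  have ex : ∃ p, C (p + 1) = C 0 := ⟨n, c _ _ ⟨_, a _ ⟨u, hu, rfl⟩, a 0 ⟨_, hn, rfl⟩⟩⟩
  have e : ∀ i, C i = C (i % (Nat.find ex + 1)) := fun i => by
    have : ∀ k r, C ((Nat.find ex + 1) * k + r) = C r := fun k r => by
      induction k with
      | zero => simp
      | succ k ih =>
        have := d _ _ ((Nat.find ex + 1) * k + r) (Nat.find_spec ex)
        rw [zero_add, ih] at this
        rw [← this]
        congr 1
        ring
    conv_lhs => rw [← Nat.div_add_mod i (Nat.find ex + 1), this]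
  have g : ∀ i j, i < j → j < Nat.find ex + 1 → C i ≠ C j := fun i j h1 h2 h => by
    have := d _ _ (Nat.find ex + 1 - j) h
    rw [show j + (Nat.find ex + 1 - j) = Nat.find ex + 1 by omega, Nat.find_spec ex,
      show i + (Nat.find ex + 1 - j) = (i + Nat.find ex - j) + 1 by omega] at this
    have := Nat.find_min' ex this
    omega
  refine ⟨C, Nat.find ex + 1, Nat.succ_pos _, rfl, fun z hz => ?_, b,
    fun i j h => by rw [e i, e j, h], fun i j h => ?_⟩
  · obtain ⟨m, hm⟩ := mem_iUnion.1 hz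
    exact ⟨m, a m hm⟩
  · have := c i j h
    rw [e i, e j] at this
    rcases lt_trichotomy (i % (Nat.find ex + 1)) (j % (Nat.find ex + 1)) with k | k | k
    exacts [(g _ _ k (Nat.mod_lt _ (Nat.succ_pos _)) this).elim, k,
      (g _ _ k (Nat.mod_lt _ (Nat.succ_pos _)) this.symm).elim]

lemma drop {X : Type} [LinearOrder X] {h : X → X} {y z : X} (hz : y ≤ z) {k : ℕ} (hk : h^[k] z < y) :
    ∃ j m, y ≤ h^[j] z ∧ h (h^[j] z) < y ∧ h^[m] (h (h^[j] z)) = h^[k] z := by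
  induction k with
  | zero => exact (hk.not_ge hz).elim
  | succ k ih =>
    rw [iterate_succ_apply'] at hk ⊢
    rcases le_or_gt y (h^[k] z) with a | a
    · exact ⟨k, 0, a, hk, rfl⟩
    · obtain ⟨j, m, h1, h2, h3⟩ := ih a
      exact ⟨j, m + 1, h1, h2, by rw [iterate_succ_apply', h3]⟩

variable {X : Type} [ConditionallyCompleteLinearOrder X] [TopologicalSpace X] [OrderTopology X]
  [DenselyOrdered X] [FirstCountableTopology X] {f : X → X} {x y : X} {c : ℕ → X}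

omit [TopologicalSpace X] [OrderTopology X] [FirstCountableTopology X] in
lemma right {V O : Set X} (o : V.OrdConnected) {e d : X} (he : y < e) (h1 : Ioo y e ⊆ V)
    (h2 : V ∩ Ioi y ⊆ O) (h3 : ¬ Ioo y d ⊆ O) : V ⊆ Iio d := fun v hv => by
  by_contra k
  refine h3 fun t ht => h2 ⟨?_, ht.1⟩
  obtain ⟨s, s1, s2⟩ := exists_between (lt_min he ht.1)
  exact o.out (h1 ⟨s1, s2.trans_le (min_le_left _ _)⟩) hv
    ⟨(s2.trans_le (min_le_right _ _)).le, ht.2.le.trans (not_lt.1 k)⟩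

lemma periodic (hf : Continuous f) (c1 : Antitone c) (c2 : ∀ l, y < c l)
    (hx : ∀ l, x ∈ orb f (Ioo y (c l))) (hA : ∀ d > y, ∃ l, ¬ Ioo y d ⊆ orb f (Ioo y (c l)))
    {q : ℕ} (hq : f^[q + 1] y = y) : y ∈ sa f x := by
  by_cases k : ∃ n, f^[n] y = x
  · exact bb (S := {y}) ⟨y, rfl, k⟩ fun z hz U hU => ⟨y, ⟨rfl, mem_of_mem_nhds hU⟩, q, hq.trans hz.symm⟩
  set h := f^[q + 1] with hh
  have hy : ∀ n, h^[n] y = y := iterate_fixed hq
  let W : ℕ → Set X := fun l => orb h (Ico y (c l))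
  have w0 : ∀ l, y ∈ W l := fun l => mem_iUnion.2 ⟨0, y, ⟨le_rfl, c2 l⟩, rfl⟩
  have w1 : ∀ l, (W l).OrdConnected := fun l => (isPreconnected_iUnion
    ⟨y, mem_iInter.2 fun n => (mem_image _ _ _).2 ⟨y, left_mem_Ico.2 (c2 l), hy n⟩⟩ fun n =>
      isPreconnected_Ico.image _ ((hf.iterate _).iterate n).continuousOn).ordConnected
  have w2 : Antitone W := fun l m e => iUnion_mono fun n => image_mono (Ico_subset_Ico_right (c1 e))
  have w3 : ∀ U ∈ 𝓝 y, ∀ᶠ l in atTop, W l ∩ Ici y ⊆ U := fun U hU => by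
    obtain ⟨d, d1, d2⟩ := exists_Ico_subset_of_mem_nhds hU ⟨_, c2 0⟩
    obtain ⟨l, hl⟩ := hA d d1
    have := right (w1 l) (c2 l) (fun t ht => mem_iUnion.2 ⟨0, t, Ioo_subset_Ico_self ht, rfl⟩)
      (fun t ht => by
        obtain ⟨n, s, hs, rfl⟩ := mem_iUnion.1 ht.1
        refine mem_iUnion.2 ⟨(q + 1) * n, s, ⟨hs.1.lt_of_ne ?_, hs.2⟩, by rw [iterate_mul]⟩
        rintro rfl
        exact (hy n).not_gt ht.2) hl
    filter_upwards [eventually_ge_atTop l] with m hm t ht using d2 ⟨ht.2, this (w2 hm ht.1)⟩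
  have dr : ∀ U ∈ 𝓝 y, ∀ᶠ l in atTop, ∀ z ∈ W l, z < y → ∃ w ∈ U, w < y ∧ ∃ m, h^[m] w = z :=
    fun U hU => by
      filter_upwards [w3 _ ((hf.iterate (q + 1)).continuousAt.preimage_mem_nhds (hq.symm ▸ hU))]
        with l hl z hz z1
      obtain ⟨n, s, hs, rfl⟩ := mem_iUnion.1 hz
      obtain ⟨j, m, h1, h2, h3⟩ := drop hs.1 z1
      exact ⟨_, hl ⟨mem_iUnion.2 ⟨j, s, hs, rfl⟩, h1⟩, h2, m, h3⟩
  have U0 : {t | ∀ i ∈ Finset.range (q + 1), f^[i] t ≠ x} ∈ 𝓝 y :=
    (Finset.eventually_all _).2 fun i _ => (hf.iterate i).continuousAt.eventually_ne fun e => k ⟨i, e⟩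
  have xw : ∀ᶠ l in atTop, ∃ w ∈ W l, w < y ∧ ∃ i ∈ Finset.range (q + 1), f^[i] w = x := by
    filter_upwards [w3 _ U0] with l hl
    obtain ⟨n, s, hs, e⟩ := mem_iUnion.1 (hx l)
    have m : h^[n / (q + 1)] s ∈ W l := mem_iUnion.2 ⟨_, s, Ioo_subset_Ico_self hs, rfl⟩
    have i := Finset.mem_range.2 (Nat.mod_lt n (Nat.succ_pos q))
    have e2 : f^[n % (q + 1)] (h^[n / (q + 1)] s) = x := by
      rw [hh, ← iterate_mul, ← iterate_add_apply, Nat.mod_add_div, e]
    exact ⟨_, m, not_le.1 fun j => hl ⟨m, j⟩ _ i e2, _, i, e2⟩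
  obtain ⟨a, a1, a2⟩ := exists_Ioc_subset_of_mem_nhds U0 (let ⟨_, w, _, h, _⟩ := xw.exists; ⟨w, h⟩)
  have aw : ∀ l, a ∈ W l := fun l => by
    obtain ⟨m, ⟨w, h1, h2, i, h3, h4⟩, hm⟩ := (xw.and (eventually_ge_atTop l)).exists
    exact (w1 l).out (w2 hm h1) (w0 l) ⟨not_lt.1 fun j => a2 ⟨j, h2.le⟩ i h3 h4, a1.le⟩
  refine bb (S := Ioo a y) ?_ fun z hz U hU => ?_
  · obtain ⟨l, h1, w, h2, h3, i, -, h4⟩ := ((dr _ (Ioi_mem_nhds a1)).and xw).exists
    obtain ⟨v, h5, h6, m, h7⟩ := h1 w h2 h3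
    exact ⟨v, ⟨h5, h6⟩, i + (q + 1) * m, by rw [iterate_add_apply, iterate_mul, ← hh, h7, h4]⟩
  · obtain ⟨l, h1⟩ := (dr _ (inter_mem hU (Ioi_mem_nhds hz.2))).exists
    obtain ⟨v, h5, h6, m, h7⟩ := h1 z ((w1 l).out (aw l) (w0 l) ⟨hz.1.le, hz.2.le⟩) hz.2
    refine ⟨v, ⟨⟨hz.1.trans h5.2, h6⟩, h5.1⟩, (q + 1) * m - 1, ?_⟩
    have : m ≠ 0 := by
      rintro rfl
      exact (show v = z from h7).not_gt h5.2
    rw [Nat.sub_add_cancel (Nat.one_le_iff_ne_zero.2 (mul_ne_zero (Nat.succ_ne_zero q) this)),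
      iterate_mul, ← hh, h7]

theorem oneSide [CompactSpace X] (hf : Continuous f)
    (nw : ∀ a b, a < b → ∃ i j, i < j ∧ (f^[i] '' Ioo a b ∩ f^[j] '' Ioo a b).Nonempty)
    {e : X} (he : y < e) (H : ∀ d > y, (Ioo y d ∩ sa f x).Nonempty) : y ∈ sa f x := by
  obtain ⟨c, c1, c2, c3⟩ := exists_seq_strictAnti_tendsto' he
  replace c1 := c1.antitone
  replace c2 := fun l => (c2 l).1
  choose v hv using fun l => H (c l) (c2 l)
  choose B b0 b1 k k1 k2 using fun l => (hv l).2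
  have fr : ∀ l, ∃ᶠ n in atTop, B l n ∈ Ioo y (c l) := fun l =>
    (k1 l).frequently ((k2 l).eventually (Ioo_mem_nhds (hv l).1.1 (hv l).1.2)).frequently
  have om : Antitone fun l => orb f (Ioo y (c l)) := fun l m e =>
    iUnion_mono fun n => image_mono (Ioo_subset_Ioo_right (c1 e))
  have bo : ∀ l n, B l n ∈ orb f (Ioo y (c l)) := fun l n => by
    obtain ⟨m, h1, h2⟩ := ((fr l).and_eventually (eventually_ge_atTop n)).exists
    obtain ⟨j, rfl⟩ := Nat.exists_eq_add_of_le h2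
    exact mem_iUnion.2 ⟨j, _, h1, br (b1 l) j n⟩
  have hx : ∀ l, x ∈ orb f (Ioo y (c l)) := fun l => b0 l ▸ bo l 0
  by_cases hA : ∀ d > y, ∃ l, ¬ Ioo y d ⊆ orb f (Ioo y (c l))
  swap
  · push Not at hA
    obtain ⟨d, d1, d2⟩ := hA
    refine bb (S := Ioo y d) ?_ fun z hz U hU => ?_
    · obtain ⟨l, hl⟩ := (c3.eventually (gt_mem_nhds d1)).exists
      obtain ⟨n, s, hs, e⟩ := mem_iUnion.1 (hx l)
      exact ⟨s, ⟨hs.1, hs.2.trans hl⟩, n, e⟩
    · obtain ⟨t, t1, t2⟩ := exists_Ico_subset_of_mem_nhds (inter_mem hU (Iio_mem_nhds hz.1)) ⟨_, he⟩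
      obtain ⟨l, hl⟩ := (c3.eventually (gt_mem_nhds t1)).exists
      obtain ⟨n, s, hs, e⟩ := mem_iUnion.1 (d2 l hz)
      have := t2 ⟨hs.1.le, hs.2.trans hl⟩
      cases n with
      | zero => exact ((show s = z from e).not_lt this.2).elim
      | succ n => exact ⟨s, ⟨⟨hs.1, this.2.trans hz.2⟩, this.1⟩, n, e⟩
  have ret : ∀ l q, ∃ u ∈ Ioo y (c l), ∃ n, f^[(q + 1) * (n + 1)] u ∈ Ioo y (c l) := fun l q => by
    have := (frequently_atTop.1 (fr l))
    choose g g1 g2 using this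
    let s : ℕ → ℕ := fun n => Nat.rec (g 0) (fun _ a => g (a + 1)) n
    have s1 : StrictMono s := strictMono_nat_of_lt_succ fun n => g1 _
    have s2 : ∀ n, B l (s n) ∈ Ioo y (c l) := fun n => by cases n <;> exact g2 _
    obtain ⟨i, j, h1, h2⟩ : ∃ i j, i < j ∧ s i ≡ s j [MOD q + 1] := by
      obtain ⟨i, j, h1, h2⟩ := Finite.exists_ne_map_eq_of_infinite fun n => (s n : ZMod (q + 1))
      rw [ZMod.natCast_eq_natCast_iff] at h2
      exact h1.lt_or_gt.elim (fun h => ⟨i, j, h, h2⟩) fun h => ⟨j, i, h, h2.symm⟩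
    obtain ⟨n, hn⟩ := (Nat.modEq_iff_dvd' (s1 h1).le).1 h2
    have := s1 h1
    cases n with
    | zero => omega
    | succ n => exact ⟨_, s2 j, n, by
        rw [← hn, ← Nat.add_sub_cancel' this.le, Nat.add_sub_cancel_left, br (b1 l)]; exact s2 i⟩
  choose u u1 n u2 using fun l => ret l 0
  simp only [zero_add, one_mul] at u2
  choose C p p0 p1 p2 p3 p4 p5 using fun l => per hf isPreconnected_Ioo (u1 l) (u2 l)
  have v0 : ∀ l, (C l 0).OrdConnected := fun l => p1 l ▸ isPreconnected_connectedComponentIn.ordConnected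
  have v1 : ∀ l, Ioo y (c l) ⊆ C l 0 := fun l => p1 l ▸ isPreconnected_Ioo.subset_connectedComponentIn
    (u1 l) fun t ht => mem_iUnion.2 ⟨0, t, ht, rfl⟩
  have v2 : ∀ l, C l 0 ⊆ orb f (Ioo y (c l)) := fun l => p1 l ▸ connectedComponentIn_subset _ _
  have v3 : Antitone fun l => C l 0 := fun l m e => by
    have h := v1 l (Ioo_subset_Ioo_right (c1 e) (u1 m))
    simp only [p1] at h ⊢
    rw [connectedComponentIn_eq h]
    exact connectedComponentIn_mono _ (om e)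
  have v4 : ∀ d > y, ∀ᶠ l in atTop, closure (C l 0) ⊆ Iio d := fun d hd => by
    obtain ⟨t, t1, t2⟩ := exists_between hd
    obtain ⟨l, hl⟩ := hA t t1
    have := right (v0 l) (c2 l) (v1 l) (inter_subset_left.trans (v2 l)) hl
    filter_upwards [eventually_ge_atTop l] with m hm s hs using
      (closure_minimal (((v3 hm).trans this).trans Iio_subset_Iic_self) isClosed_Iic hs).trans_lt t2
  by_cases hB : ∀ a < y, ∃ l, ¬ Ioo a y ⊆ C l 0
  · have v5 : ∀ a < y, ∀ᶠ l in atTop, closure (C l 0) ⊆ Ioi a := fun a ha => by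
      obtain ⟨t, t1, t2⟩ := exists_between ha
      obtain ⟨l, hl⟩ := hB t t2
      have : C l 0 ⊆ Ici t := fun s hs => not_lt.1 fun j => hl fun r hr =>
        (v0 l).out hs (v1 l (u1 l)) ⟨(j.trans hr.1).le, (hr.2.trans (u1 l).1).le⟩
      filter_upwards [eventually_ge_atTop l] with m hm s hs using
        t1.trans_le (closure_minimal ((v3 hm).trans this) isClosed_Ici hs)
    let 𝒰 := Ultrafilter.of (atTop : Filter ℕ)
    have hU : (𝒰 : Filter ℕ) ≤ atTop := Ultrafilter.of_le _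
    have : Nonempty X := ⟨x⟩
    have lim : ∀ n, Tendsto (fun m => B m n) 𝒰 (𝓝 (𝒰.map fun m => B m n).lim) := fun n =>
      Ultrafilter.le_nhds_lim _
    choose r hr using fun l => p2 l x (hx l)
    have z : ∀ l, (𝒰.map fun m => B m (r l + p l * l)).lim ∈ closure (C l 0) := fun l => by
      refine mem_closure_of_tendsto (lim _) (hU ((eventually_ge_atTop l).mono fun m hm => ?_))
      obtain ⟨i, hi⟩ := p2 l _ (om hm (bo m (r l + p l * l)))
      have h1 := p3 l i (r l + p l * l) hi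
      have h2 := br (b1 m) (r l + p l * l) 0
      rw [zero_add, b0] at h2
      have h3 := p5 l _ _ ⟨x, h2 ▸ h1, hr l⟩
      rwa [p4 l 0 i]
      refine (Nat.ModEq.add_right_cancel' (r l) ?_).symm
      rw [zero_add]
      refine .trans ?_ h3
      rw [← add_assoc, mul_comm]
      exact (Nat.modEq_add_mul_modulus_iff.2 rfl)
    refine ⟨fun n => (𝒰.map fun m => B m n).lim, tendsto_nhds_unique (lim 0) (by simp [b0]),
      fun n => tendsto_nhds_unique ((hf.tendsto _).comp (lim (n + 1))) (by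
        simpa [Function.comp_def, b1] using lim n), fun l => r l + p l * l,
      tendsto_atTop_mono (fun l => ?_) tendsto_id, tendsto_order.2
        ⟨fun a ha => (v5 a ha).mono fun l h => h (z l), fun a ha => (v4 a ha).mono fun l h => h (z l)⟩⟩
    have := Nat.le_mul_of_pos_left l (p0 l)
    simp only [id]
    omega
  push Not at hB
  obtain ⟨a, a1, a2⟩ := hB
  obtain ⟨i, j, ij, t, ⟨s, s1, s2⟩, r, r1, r2⟩ := nw a y a1
  obtain ⟨q, rfl⟩ := Nat.exists_eq_add_of_lt ij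
  have inv : ∀ l, MapsTo f^[q + 1] (C l 0) (C l 0) := fun l => by
    have h := p5 l _ _ ⟨t, s2 ▸ p3 l 0 i (a2 l s1), r2 ▸ p3 l 0 _ (a2 l r1)⟩
    have := p3 l 0 (q + 1)
    rwa [← p4 l 0 (0 + (q + 1))] at this
    refine Nat.ModEq.add_left_cancel' i ?_
    simpa [add_assoc] using h
  set g := f^[q + 1] with hg
  have gc : Continuous g := hf.iterate _
  let K := ⋂ l, closure (C l 0)
  have ki : MapsTo g K K := fun t ht => mem_iInter.2 fun l => (inv l).closure gc (mem_iInter.1 ht l)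
  have ky : ∀ t ∈ K, t ≤ y := fun t ht => not_lt.1 fun h =>
    let ⟨l, hl⟩ := (v4 t h).exists; lt_irrefl _ (hl (mem_iInter.1 ht l))
  have yk : y ∈ K := mem_iInter.2 fun l => closure_mono (v1 l) (by
    rw [closure_Ioo (c2 l).ne]; exact left_mem_Icc.2 (c2 l).le)
  have ko : K.OrdConnected := ordConnected_iInter fun l =>
    (p1 l ▸ isPreconnected_connectedComponentIn : IsPreconnected (C l 0)).closure.ordConnected
  choose u' u3 n' u4 using fun l => ret l q
  simp only [iterate_mul, ← hg] at u4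
  have nk : ∀ l m, m ≤ n' l + 1 → g^[m] (u' l) ∉ K := fun l m hm h => by
    have := ki.iterate (n' l + 1 - m) h
    rw [← iterate_add_apply, Nat.sub_add_cancel hm] at this
    exact (ky _ this).not_gt (u4 l).1
  have tt : ∀ {w : ℕ → X}, (∀ l, w l ∈ Ioo y (c l)) → Tendsto w atTop (𝓝 y) := fun h =>
    tendsto_of_tendsto_of_tendsto_of_le_of_le tendsto_const_nhds c3 (fun l => (h l).1.le)
      fun l => (h l).2.le
  have g1 : g y ∈ closure Kᶜ := mem_closure_of_tendsto ((gc.tendsto y).comp (tt u3))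
    (.of_forall fun l => nk l 1 (by omega))
  obtain ⟨w, -, φ, h1, h2⟩ := isCompact_univ.tendsto_subseq (x := fun l => g^[n' l] (u' l))
    fun _ => mem_univ _
  have g2 : w ∈ closure Kᶜ := mem_closure_of_tendsto h2 (.of_forall fun l => nk _ _ (Nat.le_succ _))
  have g3 : w ∈ K := mem_iInter.2 fun l => mem_closure_of_tendsto h2
    ((h1.tendsto_atTop.eventually (eventually_ge_atTop l)).mono fun m hm =>
      v3 hm ((inv _).iterate _ (v1 _ (u3 _))))
  have g4 : g w = y := tendsto_nhds_unique ((gc.tendsto w).comp h2) (by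
    simpa [Function.comp_def, iterate_succ_apply'] using (tt u4).comp h1.tendsto_atTop)
  have g5 : ∀ s ∈ K, ∀ t ∈ closure Kᶜ, s < t → ¬ t < y := fun s hs t ht h1 h2 => by
    obtain ⟨r, r1, r2⟩ := mem_closure_iff_nhds.1 ht _ (Ioo_mem_nhds h1 h2)
    exact r2 (ko.out hs yk (Ioo_subset_Icc_self r1))
  by_cases e1 : g y = y
  · exact periodic hf c1 c2 hx hA e1
  by_cases e2 : w = y
  · exact (e1 (e2 ▸ g4)).elim
  have e3 : g y = w := le_antisymm
    (not_lt.1 fun h => g5 _ g3 _ g1 h ((ky _ (ki yk)).lt_of_ne e1))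
    (not_lt.1 fun h => g5 _ (ki yk) _ g2 h ((ky _ g3).lt_of_ne e2))
  refine periodic hf c1 c2 hx hA (q := q + 1 + q) ?_
  rw [add_assoc, iterate_add_apply, ← hg, e3, g4]

theorem closed [CompactSpace X] (hf : Continuous f)
    (nw : ∀ a b, a < b → ∃ i j, i < j ∧ (f^[i] '' Ioo a b ∩ f^[j] '' Ioo a b).Nonempty) :
    IsClosed (sa f x) := by
  refine isClosed_of_closure_subset fun y hy => by_contra fun k => ?_
  have h : ∃ᶠ z in 𝓝[<] y ⊔ 𝓝[>] y, z ∈ sa f x := by
    rw [nhdsLT_sup_nhdsGT, frequently_nhdsWithin_iff]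
    exact (mem_closure_iff_frequently.1 hy).mono fun z hz => ⟨hz, fun e => k (e ▸ hz)⟩
  rcases frequently_sup.1 h with h | h
  · obtain ⟨e, -, he⟩ := (h.and_eventually self_mem_nhdsWithin).exists
    have : CompactSpace Xᵒᵈ := ‹CompactSpace X›
    refine k (oneSide (X := Xᵒᵈ) (f := f) (x := x) (y := y) hf (fun a b hab => ?_) (e := e) he
      fun d hd => ?_)
    · obtain ⟨i, j, ij, t, ⟨s, s1, s2⟩, r, r1, r2⟩ := nw b a hab
      exact ⟨i, j, ij, t, ⟨s, ⟨s1.2, s1.1⟩, s2⟩, r, ⟨r1.2, r1.1⟩, r2⟩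
    · obtain ⟨z, h1, h2⟩ := (h.and_eventually (Ioo_mem_nhdsLT hd)).exists
      exact ⟨z, ⟨h2.2, h2.1⟩, h1⟩
  · obtain ⟨e, -, he⟩ := (h.and_eventually self_mem_nhdsWithin).exists
    refine k (oneSide hf nw he fun d hd => ?_)
    obtain ⟨z, h1, h2⟩ := (h.and_eventually (Ioo_mem_nhdsGT hd)).exists
    exact ⟨z, h2, h1⟩

end Pool.Agent.H.MP_2df7e1_an
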