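import Pool.Agent.H.MP_2df7e1_an.A

open Set Filter Topology Function unitInterval Real

namespace Pool.Agent.H.MP_2df7e1_an

def GG (a b : I) : Set C(I, I) := ⋃ (i : ℕ) (j : ℕ) (_ : i < j) (u ∈ Ioo a b) (v ∈ Ioo a b)
  (u' ∈ Ioo a b) (v' ∈ Ioo a b), {f | f^[i] u < f^[j] v} ∩ {f | f^[j] v' < f^[i] u'}

lemma itc (i : ℕ) (u : I) : Continuous fun f : C(I, I) => f^[i] u := by
  induction i with
  | zero => exact continuous_const
  | succ i ih => simp only [iterate_succ_apply']; fun_prop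

lemma GG_open (a b : I) : IsOpen (GG a b) := by
  simp only [GG]
  iterate 11 refine isOpen_iUnion fun _ => ?_
  exact (isOpen_lt (itc _ _) (itc _ _)).inter (isOpen_lt (itc _ _) (itc _ _))

lemma GG_meet {a b : I} {f : C(I, I)} (h : f ∈ GG a b) :
    ∃ i j, i < j ∧ (f^[i] '' Ioo a b ∩ f^[j] '' Ioo a b).Nonempty := by
  simp only [GG, mem_iUnion] at h
  obtain ⟨i, j, ij, u, hu, v, hv, u', hu', v', hv', h1, h2⟩ := h
  obtain ⟨p, hp, e⟩ := (isPreconnected_Ioo.prod isPreconnected_Ioo).intermediate_value₂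
    (a := (u, v)) (b := (u', v')) ⟨hu, hv⟩ ⟨hu', hv'⟩ (f := fun p : I × I => f^[i] p.1)
    (g := fun p => f^[j] p.2) ((f.continuous.iterate i).comp continuous_fst).continuousOn
    ((f.continuous.iterate j).comp continuous_snd).continuousOn (le_of_lt h1) (le_of_lt h2)
  exact ⟨i, j, ij, _, ⟨_, hp.1, rfl⟩, _, hp.2, e.symm⟩

lemma osc (t : ℝ) : ∃ r ∈ Icc 0 (2 * π), ∃ s ∈ Icc 0 (2 * π), sin (t + r) + 1 ≤ sin (t + s) := by
  have p := pi_pos
  have a0 : (0 : ℝ) ∈ Icc 0 (2 * π) := ⟨le_rfl, by linarith⟩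
  have a1 : π ∈ Icc 0 (2 * π) := ⟨by linarith, by linarith⟩
  have a2 : π / 2 ∈ Icc 0 (2 * π) := ⟨by linarith, by linarith⟩
  have a3 : π / 2 + π ∈ Icc 0 (2 * π) := ⟨by linarith, by linarith⟩
  have e : sin (t + (π / 2 + π)) = -cos t := by rw [← add_assoc, sin_add_pi, sin_add_pi_div_two]
  by_cases h1 : 1 / 2 ≤ sin t
  · exact ⟨_, a1, _, a0, by rw [sin_add_pi, add_zero]; linarith⟩
  by_cases h2 : sin t ≤ -1 / 2
  · exact ⟨_, a0, _, a1, by rw [sin_add_pi, add_zero]; linarith⟩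
  by_cases h3 : 1 / 2 ≤ cos t
  · exact ⟨_, a3, _, a2, by rw [e, sin_add_pi_div_two]; linarith⟩
  by_cases h4 : cos t ≤ -1 / 2
  · exact ⟨_, a2, _, a3, by rw [e, sin_add_pi_div_two]; linarith⟩
  nlinarith [sin_sq_add_cos_sq t]

lemma GG_dense {a b : I} (hab : a < b) : Dense (GG a b) := Metric.dense_iff.2 fun f ε hε => by
  obtain ⟨δ, d0, d1, d2⟩ : ∃ δ : ℝ, 0 < δ ∧ δ ≤ 1 / 2 ∧ 2 * δ < ε :=
    ⟨min (1 / 2) (ε / 4), by positivity, min_le_left _ _, by linarith [min_le_right (1 / 2) (ε / 4)]⟩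
  obtain ⟨ρ, r0, hρ⟩ := Metric.uniformContinuous_iff_le.1
    (CompactSpace.uniformContinuous_of_continuous f.continuous) (δ / 2) (half_pos d0)
  obtain ⟨c, c1, c2⟩ := exists_between hab
  obtain ⟨d, d3, d4⟩ := exists_between c2
  have cd : (0 : ℝ) < d - c := sub_pos.2 d3
  set L := min ρ (min (δ / 2) (d - c))
  have L0 : 0 < L := by positivity
  have L1 : L ≤ ρ := min_le_left _ _
  have L2 : L ≤ δ / 2 := (min_le_right _ _).trans (min_le_left _ _)
  have L3 : L ≤ d - c := (min_le_right _ _).trans (min_le_right _ _)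
  have p := pi_pos
  let g : C(I, I) := ⟨fun t => ⟨(1 - 2 * δ) * f t + δ + δ * sin (2 * π / L * t), by
    have h1 := (f t).2
    have h2 := sin_mem_Icc (2 * π / L * t)
    constructor <;> nlinarith [h1.1, h1.2, h2.1, h2.2]⟩, by fun_prop⟩
  have hg : ∀ t, (g t : ℝ) = (1 - 2 * δ) * f t + δ + δ * sin (2 * π / L * t) := fun _ => rfl
  refine ⟨g, Metric.mem_ball.2 (((ContinuousMap.dist_le (by positivity)).2 fun t => ?_).trans_lt d2), ?_⟩
  · have h1 := (f t).2
    have h2 := sin_mem_Icc (2 * π / L * t)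
    rw [Subtype.dist_eq, Real.dist_eq, hg, abs_le]
    constructor <;> nlinarith [h1.1, h1.2, h2.1, h2.2]
  have key : ∀ n, ∃ u ∈ Ioo a b, ∃ v ∈ Ioo a b, (g^[n] u : ℝ) + L ≤ g^[n] v := fun n => by
    induction n with
    | zero => exact ⟨c, ⟨c1, c2⟩, d, ⟨c1.trans d3, d4⟩, by simp only [iterate_zero, id]; linarith⟩
    | succ n ih =>
      obtain ⟨u, hu, v, hv, h⟩ := ih
      have o := (isPreconnected_Ioo.image _ (g.continuous.iterate n).continuousOn
        (s := Ioo a b)).ordConnected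
      have m : ∀ r ∈ Icc 0 (2 * π), ∃ w ∈ Ioo a b, (g^[n] w : ℝ) = g^[n] u + r * L / (2 * π) ∧
          0 ≤ r * L / (2 * π) ∧ r * L / (2 * π) ≤ L := fun r hr => by
        have h1 : 0 ≤ r * L / (2 * π) := by have := hr.1; positivity
        have h2 : r * L / (2 * π) ≤ L := by
          rw [div_le_iff₀ (by positivity)]; nlinarith [hr.2]
        let t : I := ⟨g^[n] u + r * L / (2 * π), by linarith [(g^[n] u).2.1], by linarith [(g^[n] v).2.2]⟩
        obtain ⟨w, hw, e⟩ := o.out ⟨u, hu, rfl⟩ ⟨v, hv, rfl⟩ (show t ∈ Icc (g^[n] u) (g^[n] v) from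
          ⟨show (g^[n] u : ℝ) ≤ g^[n] u + r * L / (2 * π) by linarith,
            show (g^[n] u : ℝ) + r * L / (2 * π) ≤ g^[n] v by linarith⟩)
        exact ⟨w, hw, by rw [e], h1, h2⟩
      obtain ⟨r, hr, s, hs, k⟩ := osc (2 * π / L * g^[n] u)
      obtain ⟨w, w1, w2, w3, w4⟩ := m r hr
      obtain ⟨z, z1, z2, z3, z4⟩ := m s hs
      refine ⟨w, w1, z, z1, ?_⟩
      have := hρ (a := g^[n] w) (b := g^[n] z) (by
        rw [Subtype.dist_eq, Real.dist_eq, w2, z2, abs_le]; constructor <;> linarith)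
      rw [Subtype.dist_eq, Real.dist_eq, abs_le] at this
      rw [iterate_succ_apply', iterate_succ_apply', hg, hg, w2, z2, mul_add, mul_add (2 * π / L),
        show 2 * π / L * (r * L / (2 * π)) = r by field_simp,
        show 2 * π / L * (s * L / (2 * π)) = s by field_simp]
      nlinarith [this.1, this.2]
  choose u hu v hv h using key
  obtain ⟨w, -, φ, h1, h2⟩ := isCompact_univ.tendsto_subseq (x := fun n => g^[n] (u n)) fun _ => mem_univ _
  obtain ⟨N, hN⟩ := Metric.cauchySeq_iff'.1 h2.cauchySeq L L0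
  have := hN (N + 1) (Nat.le_succ N)
  simp only [Function.comp, Subtype.dist_eq, Real.dist_eq, abs_lt] at this
  simp only [GG, mem_iUnion]
  exact ⟨φ N, φ (N + 1), h1 (Nat.lt_succ_self N), _, hu (φ N), _, hv (φ (N + 1)), _, hv (φ N), _,
    hu (φ (N + 1)), show (_ : ℝ) < _ by linarith [h (φ (N + 1))], show (_ : ℝ) < _ by linarith [h (φ N)]⟩

theorem main : ∀ᶠ f : C(I, I) in residual _, ∀ x, IsClosed (sa f x) := by
  obtain ⟨D, D1, D2⟩ := TopologicalSpace.exists_countable_dense I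
  have := D1.to_subtype
  have : ∀ᶠ f : C(I, I) in residual _, ∀ p : D × D, p.1 < p.2 → f ∈ GG p.1 p.2 :=
    eventually_countable_forall.2 fun p => by
      by_cases h : p.1 < p.2
      · simpa only [h, true_imp_iff] using! residual_of_dense_open (GG_open _ _) (GG_dense h)
      · simp [h]
  refine this.mono fun f hf x => closed f.continuous fun a b hab => ?_
  obtain ⟨c, c1, c2⟩ := D2.exists_between hab
  obtain ⟨d, d1, d2⟩ := D2.exists_between c2.2
  obtain ⟨i, j, ij, h⟩ := GG_meet (hf (⟨c, c1⟩, ⟨d, d1⟩) d2.1)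
  have s : Ioo c d ⊆ Ioo a b := Ioo_subset_Ioo c2.1.le d2.2.le
  exact ⟨i, j, ij, h.mono (inter_subset_inter (image_mono s) (image_mono s))⟩

end Pool.Agent.H.MP_2df7e1_an
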