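import Mathlib

open Filter Topology

namespace Pool.Agent.H.MP_2df7e1_an

/-- the special alpha-limit set: accumulation points of backward orbit branches of x -/
def sa {X : Type} [TopologicalSpace X] (f : X → X) (x : X) : Set X :=
  {y | ∃ b : ℕ → X, b 0 = x ∧ (∀ n, f (b (n + 1)) = b n) ∧
    ∃ k : ℕ → ℕ, Tendsto k atTop atTop ∧ Tendsto (fun j => b (k j)) atTop (𝓝 y)}

end Pool.Agent.H.MP_2df7e1_an
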